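import Mathlib
import Pool.Agent.H.MP_e825aa_al.Main

set_option autoImplicit false
set_option maxHeartbeats 400000

namespace Pool.Agent.Results.MP_e825aa_al.InfinitelyMany

/-- `G / H` is a faithful irreducible coset space. -/
def FaithfulIrreducible {G : Type} [Group G] [TopologicalSpace G] (H : Subgroup G) : Prop :=
  IsClosed (H : Set G) ∧ H ≠ ⊤ ∧
    (∀ K : Subgroup G, IsClosed (K : Set G) → H ≤ K → K = H ∨ K = ⊤) ∧ H.normalCore = ⊥

/-- `M` is minimal among the nontrivial closed normal subgroups. -/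
def MinClosedNormal {G : Type} [Group G] [TopologicalSpace G] (M : Subgroup G) : Prop :=
  M.Normal ∧ IsClosed (M : Set G) ∧ M ≠ ⊥ ∧
    ∀ N : Subgroup G, N.Normal → IsClosed (N : Set G) → N ≤ M → N = ⊥ ∨ N = M

open Pool.Agent.H.MP_e825aa_al

theorem fi : FaithfulIrreducible HH := ⟨H_closed, H_ne_top, H_max, H_core⟩

theorem mn (l : Lam) (hl : l ≠ 0) : MinClosedNormal (M l) :=
  ⟨M_normal l, M_closed l, M_ne_bot l hl, fun N hN _ hle => M_min l N hN hle⟩

theorem s_ne (i : ℕ) : (Finsupp.single i 1 : Lam) ≠ 0 := by simp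

theorem s_inj (i j : ℕ) (h : (Finsupp.single i 1 : Lam) = Finsupp.single j 1) : i = j :=
  Finsupp.single_left_injective one_ne_zero h

theorem result : ∃ (G : Type) (_ : Group G) (_ : TopologicalSpace G),
    IsTopologicalGroup G ∧ T2Space G ∧ SecondCountableTopology G ∧
    ∃ H : Subgroup G, FaithfulIrreducible H ∧ {M : Subgroup G | MinClosedNormal M}.Infinite := by
  refine ⟨G, inferInstance, inferInstance, inferInstance, inferInstance, inferInstance, HH, fi, ?_⟩
  refine Set.infinite_of_injective_forall_mem (f := fun i : ℕ => M (Finsupp.single i 1)) ?_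
    fun i => mn _ (s_ne i)
  intro i j h
  by_contra hne
  have := M_inf _ _ (fun e => hne (s_inj i j e))
  simp only [] at h
  rw [← h, inf_idem] at this
  exact M_ne_bot _ (s_ne i) this

end Pool.Agent.Results.MP_e825aa_al.InfinitelyMany
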